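import Pool.Agent.Helper769.FAG.Main0

/-!
# Exponential relaxation of FA-1f on `ℤ`, for every density `q` in `(0,1)`

The infinite-volume semigroup `Pinf` is the limit (uniform in the configuration) of the semigroups
`Pbox` in which only the sites of `[-n,n]` may flip.
-/

namespace Pool.Agent.Results.MP_be561b_pr.ExpRelaxationBoxLimit

open MeasureTheory FA.Inf

theorem result (q : ℝ) (h0 : 0 < q) (h1 : q < 1) :
    -- the infinite-volume semigroup: uniform limit of the box semigroups, forward equation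
    (∀ (r : ℕ) (f : Cfg → ℝ), Loc r f →
      (∀ η, Pinf q 0 f η = f η) ∧
      (∀ t : ℝ, 0 ≤ t →
        TendstoUniformly (fun (n : ℕ) (η : Cfg) => Pbox q n t f η) (Pinf q t f) Filter.atTop) ∧
      (∀ t : ℝ, 0 < t → ∀ η,
        HasDerivAt (fun s => Pinf q s f η) (Pinf q t (Lfull q f) η) t)) ∧
    -- exponential relaxation
    (∀ ν : Measure Cfg, IsProbabilityMeasure ν → ∀ κ A : ℝ, 0 < κ →
      (∀ l : ℕ, ν.real {η | ∀ x : ℤ, -(l : ℤ) ≤ x → x ≤ l → η x = true} ≤
        A * Real.exp (-(κ * l))) →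
      ∀ (r : ℕ) (f : Cfg → ℝ), Loc r f →
        ∃ C c : ℝ, 0 < C ∧ 0 < c ∧ ∀ t : ℝ, 0 ≤ t →
          |∫ η, Pinf q t f η ∂ν - ∫ η, f η ∂(piq q h0 h1)| ≤ C * Real.exp (-(c * t))) := by
  refine ⟨fun r f hf => ⟨fun η => Pinf_zero f η, fun t ht => Pinf_lim h0.le h1.le r f hf t ht,
    fun t ht η => Pinf_deriv h0.le h1.le r f hf t ht η⟩, ?_⟩
  intro ν hν κ A hκ hA r f hf
  exact main0 q h0 h1 ν κ A hκ hA r f hf

end Pool.Agent.Results.MP_be561b_pr.ExpRelaxationBoxLimit
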