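import Pool.Agent.Helper769.FAH.P_mainK

/-!
# Exponential relaxation of FA-1f on `ℤ` from non-equilibrium initial laws, for every `q` in `(0,1)`

The process is any Markov semigroup on `{0,1}^ℤ` whose generator on local functions is that of FA-1f
(`IsFA1f`); such a semigroup exists, and the theorem holds for each of them.
-/

namespace Pool.Agent.Results.MP_be561b_pr.ExponentialRelaxation

open MeasureTheory ProbabilityTheory Filter FAK

theorem result (q : ℝ) (h0 : 0 < q) (h1 : q < 1) :
    -- the FA-1f process with infection density `q` exists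
    (∃ P : ℝ → Kernel Config Config, IsFA1f q P) ∧
    -- and relaxes exponentially fast from every law with exponentially small gap probabilities
    ∀ P : ℝ → Kernel Config Config, IsFA1f q P →
    ∀ ν : Measure Config, IsProbabilityMeasure ν →
      (∃ κ : ℝ, 0 < κ ∧
        (fun l : ℕ => ν.real {η | ∀ x : ℤ, |x| ≤ l → η x = true}) =O[atTop]
          (fun l : ℕ => Real.exp (-κ * l))) →
      ∀ f : Config → ℝ, IsLocal f → ∃ C c : ℝ, 0 < C ∧ 0 < c ∧ ∀ t : ℝ, 0 ≤ t →
        |(∫ η, (∫ ξ, f ξ ∂(P t η)) ∂ν) - ∫ ξ, f ξ ∂(prodM q)| ≤ C * Real.exp (-c * t) :=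
  mainK q h0 h1

end Pool.Agent.Results.MP_be561b_pr.ExponentialRelaxation
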